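import Mathlib
import Pool.Agent.Helper84.HornCP

set_option autoImplicit false
open Matrix Topology

namespace Pool.Agent.Results.MP_a20134_al.IrrationalSquareFactorizations

/-- The space of real symmetric `n × n` matrices, with the (subspace of the entrywise) Euclidean
topology. -/
abbrev Sym (n : ℕ) := {M : Matrix (Fin n) (Fin n) ℝ // Mᵀ = M}

/-- The completely positive cone, as a subset of the symmetric matrices. -/
def CP (n : ℕ) : Set (Sym n) :=
  {M | ∃ m : ℕ, 1 ≤ m ∧ ∃ C : Matrix (Fin n) (Fin m) ℝ, (∀ i j, 0 ≤ C i j) ∧ M.1 = C * Cᵀ}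

/-- The doubly nonnegative cone, as a subset of the symmetric matrices. -/
def DNN (n : ℕ) : Set (Sym n) :=
  {M | M.1.PosSemidef ∧ ∀ i j, 0 ≤ M.1 i j}

/-- `B` is a square factorization of `A`: entrywise nonnegative, `n × n`, with `A = B Bᵀ`. -/
def IsSquareFactorization {n : ℕ} (A : Sym n) (B : Matrix (Fin n) (Fin n) ℝ) : Prop :=
  (∀ i j, 0 ≤ B i j) ∧ A.1 = B * Bᵀ

/-- There is a rational matrix in `∂CP₅ ∩ int DNN₅` that has square factorizations, and in each of
its square factorizations every column `b` has an irrational entry `b i` for which moreover the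
diagonal entry `(b i)²` of `b bᵀ` is irrational. -/
theorem result : ∃ A : Sym 5, A ∈ frontier (CP 5) ∧ A ∈ interior (DNN 5) ∧
    (∀ i j, ∃ q : ℚ, A.1 i j = (q : ℝ)) ∧
    (∃ B, IsSquareFactorization A B) ∧
    ∀ B, IsSquareFactorization A B →
      ∀ j, ∃ i, Irrational (B i j) ∧ Irrational ((B i j) * (B i j)) := by
  refine ⟨⟨Helper84.HornCP.A, Helper84.HornCP.A_symm⟩, ?_, ?_, Helper84.HornCP.A_rat,
    ⟨Helper84.HornCP.B, Helper84.HornCP.B_nonneg, Helper84.HornCP.A_eq⟩, ?_⟩
  · rw [frontier, Set.mem_sdiff]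
    constructor
    · exact subset_closure ⟨5, by norm_num, Helper84.HornCP.B, Helper84.HornCP.B_nonneg,
        Helper84.HornCP.A_eq⟩
    · intro hint
      rw [mem_interior_iff_mem_nhds] at hint
      have hcont : Continuous (fun δ : ℝ => (⟨Helper84.HornCP.A - δ • (1 : Matrix (Fin 5) (Fin 5) ℝ),
          by rw [transpose_sub, Helper84.HornCP.A_symm, transpose_smul, transpose_one]⟩ : Sym 5)) := by
        refine Continuous.subtype_mk ?_ _
        fun_prop
      have h0 := hcont.tendsto 0
      have h1 : (⟨Helper84.HornCP.A - (0 : ℝ) • (1 : Matrix (Fin 5) (Fin 5) ℝ),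
          by rw [transpose_sub, Helper84.HornCP.A_symm, transpose_smul, transpose_one]⟩ : Sym 5)
          = ⟨Helper84.HornCP.A, Helper84.HornCP.A_symm⟩ := by
        apply Subtype.ext
        simp
      rw [h1] at h0
      have h2 := h0.eventually hint
      obtain ⟨ε, hε, hball⟩ := Metric.eventually_nhds_iff.1 h2
      have h3 := hball (y := ε/2) (by
        rw [Real.dist_eq, sub_zero, abs_of_pos (by linarith)]; linarith)
      obtain ⟨m, -, C, hC, hS⟩ := h3
      exact Helper84.HornCP.not_cp (half_pos hε) hC hS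
  · rw [mem_interior_iff_mem_nhds]
    have h1 : ∀ i j : Fin 5, ∀ᶠ S : Sym 5 in 𝓝 ⟨Helper84.HornCP.A, Helper84.HornCP.A_symm⟩,
        |S.1 i j - Helper84.HornCP.A i j| < 1/10 := by
      intro i j
      have hc : Continuous (fun S : Sym 5 => |S.1 i j - Helper84.HornCP.A i j|) := by
        have : Continuous (fun S : Sym 5 => S.1 i j) :=
          (continuous_subtype_val.matrix_elem i j)
        exact (this.sub continuous_const).abs
      have h2 := hc.tendsto ⟨Helper84.HornCP.A, Helper84.HornCP.A_symm⟩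
      simp only [sub_self, abs_zero] at h2
      exact h2.eventually (gt_mem_nhds (by norm_num))
    have h2 : ∀ᶠ S : Sym 5 in 𝓝 ⟨Helper84.HornCP.A, Helper84.HornCP.A_symm⟩,
        ∀ i j, |S.1 i j - Helper84.HornCP.A i j| < 1/10 := by
      rw [Filter.eventually_all]; intro i
      rw [Filter.eventually_all]; intro j
      exact h1 i j
    filter_upwards [h2] with S hS
    exact Helper84.HornCP.near S.2 hS
  · rintro B ⟨hB, hA⟩ j
    obtain ⟨i, hi⟩ := Helper84.HornCP.all_irrational hB hA j
    refine ⟨i, ?_, hi⟩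
    rintro ⟨q, hq⟩
    exact hi ⟨q * q, by rw [← hq]; push_cast; ring⟩

end Pool.Agent.Results.MP_a20134_al.IrrationalSquareFactorizations
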